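import Pool.Agent.Y966.SY.Fin

/-!
The law of the iterates of the Syracuse map modulo powers of `3`: its moments of all orders, its
maximum, and its Fourier coefficients.
-/

set_option autoImplicit false

namespace Pool.Agent.Results.MP_005f52_nt.IteratesModPowersOfThree

open Filter Topology Finset

/-- the Syracuse map on the odd integers -/
def Syr (N : ℤ) : ℤ := (3 * N + 1) / 2 ^ padicValInt 2 (3 * N + 1)

/-- Among the negative odd integers those with the property `P` have the natural density `l`. -/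
def HasDensity (P : ℤ → Prop) (l : ℝ) : Prop :=
  Tendsto (fun X : ℕ => ({N : ℤ | -(X : ℤ) ≤ N ∧ N < 0 ∧ Odd N ∧ P N}.ncard : ℝ) / (X / 2)) atTop (𝓝 l)

/-- the Fourier coefficient `∑_{x mod 3^n} d(x) e(ξ x / 3^n)` -/
noncomputable def coeff (n : ℕ) (d : ℕ → ℝ) (ξ : ℕ) : ℂ :=
  ∑ x ∈ range (3 ^ n), (d x : ℂ) * Complex.exp (2 * Real.pi * Complex.I * ξ * x / (3 ^ n : ℕ))

lemma density {n k x : ℕ} (hk : n ≤ k) (hx : x < 3 ^ n) :
    HasDensity (fun N => (3 : ℤ) ^ n ∣ Syr^[k] N - x) (Pool.Agent.Y966.SY.dens n x) := by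
  obtain ⟨l, rfl⟩ := Nat.exists_eq_add_of_le hk
  unfold HasDensity
  rw [Metric.tendsto_atTop]
  intro ε hε
  obtain ⟨K, hK⟩ := Pool.Agent.Y966.SY.count_dens n l x hx (show 0 < ε / 4 by positivity)
  obtain ⟨X₀, hX₀⟩ := exists_nat_ge (8 * |K| / ε)
  refine ⟨max X₀ 1, fun X hX => ?_⟩
  have hX1 : (1 : ℝ) ≤ X := by exact_mod_cast (le_max_right _ _).trans hX
  have hX2 : 8 * |K| / ε ≤ X := hX₀.trans (by exact_mod_cast (le_max_left _ _).trans hX)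
  rw [div_le_iff₀ hε] at hX2
  have h1 := hK (-(X : ℤ)) 0 (by omega)
  have hset : {N : ℤ | -(X : ℤ) ≤ N ∧ N < 0 ∧ Odd N ∧ (3 : ℤ) ^ n ∣ Syr^[n + l] N - x} =
      (((Ico (-(X : ℤ)) 0).filter fun N => N % 2 = 1 ∧
        (3 : ℤ) ^ n ∣ Pool.Agent.Y966.SY.Syr^[n + l] N - x : Finset ℤ) : Set ℤ) := by
    ext N
    simp only [Set.mem_setOf_eq, coe_filter, mem_Ico, Int.odd_iff, and_assoc]
    exact Iff.rfl
  rw [hset, Set.ncard_coe_finset, Real.dist_eq]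
  push_cast at h1
  have hX0 : (0 : ℝ) < X / 2 := by positivity
  set c : ℝ := (((Ico (-(X : ℤ)) 0).filter fun N => N % 2 = 1 ∧
        (3 : ℤ) ^ n ∣ Pool.Agent.Y966.SY.Syr^[n + l] N - x).card : ℝ) with hc
  have e1 : c / (X / 2) - Pool.Agent.Y966.SY.dens n x =
      (c - Pool.Agent.Y966.SY.dens n x * ((0 - -(X : ℝ)) / 2)) / (X / 2) := by
    field_simp
    ring
  rw [e1, abs_div, abs_of_pos hX0, div_lt_iff₀ hX0]
  refine lt_of_le_of_lt h1 ?_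
  have h2 := le_abs_self K
  have h3 := abs_nonneg K
  nlinarith

/-- For all `n` and `x` there is a number `d n x` such that for every `k ≥ n` the negative odd `N` with
`Syr^k (N) ≡ x` modulo `3 ^ n` have natural density `d n x` among the negative odd integers. (1) For
every integer `q ≥ 2` the moment `∑_x (d n x) ^ q` is `(2 ^ q - 1) ^ (- n + o(n))`; for `q = 2` it is
`3 ^ (- n + o(n))`. (2) The largest of the `d n x` is `2 ^ (- n + o(n))`. (3) For all `δ` and `ε > 0`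
and all large `n` at most `3 ^ ((2 δ + ε) n)` of the `3 ^ n` Fourier coefficients of `d n` modulo `3 ^ n`
have absolute value at least `3 ^ (- δ n)`. -/
theorem result : ∃ d : ℕ → ℕ → ℝ,
    (∀ n k x : ℕ, n ≤ k → x < 3 ^ n → HasDensity (fun N => (3 : ℤ) ^ n ∣ Syr^[k] N - x) (d n x)) ∧
    (∀ q : ℕ, 2 ≤ q → ∀ ε : ℝ, 0 < ε → ∃ n₀ : ℕ, ∀ n : ℕ, n₀ ≤ n →
      (1 / (2 ^ q - 1) : ℝ) ^ n ≤ ∑ x ∈ range (3 ^ n), d n x ^ q ∧
      ∑ x ∈ range (3 ^ n), d n x ^ q ≤ Real.exp (ε * n) * (1 / (2 ^ q - 1) : ℝ) ^ n) ∧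
    (∀ ε : ℝ, 0 < ε → ∃ n₀ : ℕ, ∀ n : ℕ, n₀ ≤ n →
      (∀ x < 3 ^ n, d n x ≤ Real.exp (ε * n) * (1 / 2 : ℝ) ^ n) ∧
      (1 / 2 : ℝ) ^ n ≤ d n (3 ^ n - 1)) ∧
    (∀ δ ε : ℝ, 0 < ε → ∃ n₀ : ℕ, ∀ n : ℕ, n₀ ≤ n →
      (((range (3 ^ n)).filter fun ξ => (3 : ℝ) ^ (-(δ * n)) ≤ ‖coeff n (d n) ξ‖).card : ℝ) ≤
        (3 : ℝ) ^ ((2 * δ + ε) * n)) := by
  refine ⟨Pool.Agent.Y966.SY.dens, fun n k x hk hx => density hk hx, fun q hq ε hε => ?_,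
    fun ε hε => ?_, fun δ ε hε => ?_⟩
  · obtain ⟨n₀, hn₀⟩ := Pool.Agent.Y966.SY.dens_upper hq hε
    exact ⟨n₀, fun n hn => ⟨Pool.Agent.Y966.SY.dens_lower (by omega) n, hn₀ n hn⟩⟩
  · obtain ⟨n₀, hn₀⟩ := Pool.Agent.Y966.SY.dens_max hε
    exact ⟨n₀, fun n hn => ⟨hn₀ n hn, Pool.Agent.Y966.SY.dens_max_lower n⟩⟩
  · exact Pool.Agent.Y966.SY.fourier_few hε

end Pool.Agent.Results.MP_005f52_nt.IteratesModPowersOfThree
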