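import Mathlib
import Pool.Agent.Y967.CM.Z
import Pool.Agent.Y967.CM.SP
import Pool.Agent.Y967.CM.SQ

set_option autoImplicit false

/-!
# Syracuse orbits of negative odd integers along sparse sequences

For almost all members of a sparse sequence of odd integers (negative primes, negative values of
polynomials, `-3 ^ p a`) the Syracuse orbits of all odd integers which pass near the sequence merge
with the orbit of the member, after an exactly known number of steps. For the numbers `-(2 ^ m a + 1)`: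
for almost all `m` the Syracuse orbits of `-(2 ^ (m + j) a + 1)`, `j ≤ W m`, coincide from the same
step on; so these numbers enter the same cycle, after the same number of steps.
-/

namespace Pool.Agent.Results.MP_005f52_nt.SparseSequences

open Filter Topology

/-- The Syracuse map. -/
def Syr (N : ℤ) : ℤ := (3 * N + 1) / 2 ^ padicValInt 2 (3 * N + 1)

/-- The shortened map `x / 2`, `(3 x + 1) / 2`; its odd terms form the Syracuse orbit. -/
def T (x : ℤ) : ℤ := if x % 2 = 0 then x / 2 else (3 * x + 1) / 2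

/-- The number of odd terms among `z, T z, ..., T^(k-1) z`. -/
def odds (k : ℕ) (z : ℤ) : ℕ := ((Finset.range k).filter fun i => T^[i] z % 2 = 1).card

/-- The Syracuse orbit of `N` enters `F` after exactly `k` steps. -/
def Enters (F : Finset ℤ) (k : ℕ) (N : ℤ) : Prop := Syr^[k] N ∈ F ∧ ∀ i < k, Syr^[i] N ∉ F

/-- `F` is a finite set of odd integers with `Syr F ⊆ F`, for example one of the known cycles, or a union
of cycles. -/
def Closed (F : Finset ℤ) : Prop := ∀ y ∈ F, Odd y ∧ Syr y ∈ F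

/-- The sequence `x` is spread modulo powers of two: there is `δ > 0` such that for every `ε > 0` there
are `η > 0` and `N₀` such that, for `N ≥ N₀` and `2 ^ t ≤ N ^ δ`, at most `η 2 ^ t` classes modulo `2 ^ t`
contain together at most `ε N` of the integers `x n`, `1 ≤ n ≤ N`. -/
def Spread (x : ℕ → ℤ) : Prop :=
  ∃ δ : ℝ, 0 < δ ∧ ∀ ε : ℝ, 0 < ε → ∃ η : ℝ, 0 < η ∧ ∃ N₀ : ℕ, ∀ N : ℕ, N₀ ≤ N →
    ∀ t : ℕ, (2 : ℝ) ^ t ≤ (N : ℝ) ^ δ → ∀ A : Finset ℤ, (A.card : ℝ) ≤ η * 2 ^ t →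
      (({n | 1 ≤ n ∧ n ≤ N ∧ ∃ a ∈ A, x n ≡ a [ZMOD 2 ^ t]} : Set ℕ).ncard : ℝ) ≤ ε * N

/-- `P n` holds for almost all `n`, in the sense of natural density. -/
def AlmostAll (P : ℕ → Prop) : Prop :=
  Tendsto (fun N : ℕ => (({n | 1 ≤ n ∧ n ≤ N ∧ ¬ P n} : Set ℕ).ncard : ℝ) / N) atTop (𝓝 0)

/-- The range: `W n = √ log n / (log log n) ^ 17`. -/
noncomputable def W (n : ℕ) : ℝ := √ (Real.log n) / (Real.log (Real.log n)) ^ 17

open Pool.Agent.Y967.CM

theorem ncard_eq (P : ℕ → Prop) [DecidablePred P] (N : ℕ) :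
    ({n | 1 ≤ n ∧ n ≤ N ∧ P n} : Set ℕ).ncard = ((Finset.Icc 1 N).filter P).card := by
  rw [← Set.ncard_coe_finset]
  congr 1
  ext n
  simp only [Set.mem_ofPred_eq, Finset.coe_filter, Finset.mem_Icc, and_assoc]

theorem spread_iff (x : ℕ → ℤ) : Spread x ↔ Pool.Agent.Y967.CM.Spread x := by
  classical
  have key : ∀ (N t : ℕ) (A : Finset ℤ),
      (({n | 1 ≤ n ∧ n ≤ N ∧ ∃ a ∈ A, x n ≡ a [ZMOD 2 ^ t]} : Set ℕ).ncard : ℝ) =
      (((Finset.Icc 1 N).filter (fun n => ∃ a ∈ A, x n ≡ a [ZMOD 2 ^ t])).card : ℝ) := by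
    intro N t A
    rw [ncard_eq]
  unfold Spread Pool.Agent.Y967.CM.Spread
  simp only [key]

theorem almost_of {P : ℕ → Prop} (h : ∀ ε : ℝ, 0 < ε → ∀ᶠ N : ℕ in atTop,
    (({n | 1 ≤ n ∧ n ≤ N ∧ ¬ P n} : Set ℕ).ncard : ℝ) ≤ ε * N) : AlmostAll P := by
  unfold AlmostAll
  rw [Metric.tendsto_nhds]
  intro ε hε
  filter_upwards [h (ε / 2) (by positivity), eventually_gt_atTop 0] with N h1 h2
  have hN : (0 : ℝ) < N := by exact_mod_cast h2
  rw [Real.dist_eq, sub_zero, abs_of_nonneg (by positivity), div_lt_iff₀ hN]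
  nlinarith

theorem AlmostAll.ev {P : ℕ → Prop} (h : AlmostAll P) {ε : ℝ} (hε : 0 < ε) : ∀ᶠ N : ℕ in atTop,
    (({n | 1 ≤ n ∧ n ≤ N ∧ ¬ P n} : Set ℕ).ncard : ℝ) ≤ ε * N := by
  unfold AlmostAll at h
  rw [Metric.tendsto_nhds] at h
  filter_upwards [h ε hε, eventually_gt_atTop 0] with N h1 h2
  have hN : (0 : ℝ) < N := by exact_mod_cast h2
  rw [Real.dist_eq, sub_zero, abs_of_nonneg (by positivity), div_lt_iff₀ hN] at h1
  exact h1.le

theorem AlmostAll.mono {P Q : ℕ → Prop} (h : AlmostAll P) (hPQ : ∀ n, P n → Q n) : AlmostAll Q := by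
  classical
  unfold AlmostAll at *
  refine squeeze_zero (fun N => by positivity) (fun N => ?_) h
  apply div_le_div_of_nonneg_right _ (Nat.cast_nonneg N)
  rw [ncard_eq, ncard_eq]
  have : ((Finset.Icc 1 N).filter (fun n => ¬ Q n)) ⊆ ((Finset.Icc 1 N).filter (fun n => ¬ P n)) := by
    intro n hn
    rw [Finset.mem_filter] at hn ⊢
    exact ⟨hn.1, fun h => hn.2 (hPQ n h)⟩
  exact_mod_cast Finset.card_le_card this

theorem AlmostAll.and {P Q : ℕ → Prop} (h : AlmostAll P) (h' : AlmostAll Q) :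
    AlmostAll (fun n => P n ∧ Q n) := by
  classical
  unfold AlmostAll at *
  have h3 := h.add h'
  rw [add_zero] at h3
  refine squeeze_zero (fun N => by positivity) (fun N => ?_) h3
  rw [← add_div]
  apply div_le_div_of_nonneg_right _ (Nat.cast_nonneg N)
  rw [ncard_eq, ncard_eq, ncard_eq]
  have h4 : ((Finset.Icc 1 N).filter (fun n => ¬ (P n ∧ Q n))) ⊆
      ((Finset.Icc 1 N).filter (fun n => ¬ P n)) ∪ ((Finset.Icc 1 N).filter (fun n => ¬ Q n)) := by
    intro n hn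
    rw [Finset.mem_filter] at hn
    rw [Finset.mem_union, Finset.mem_filter, Finset.mem_filter]
    by_contra hcon
    rw [not_or] at hcon
    apply hn.2
    refine ⟨?_, ?_⟩
    · by_contra h5
      exact hcon.1 ⟨hn.1, h5⟩
    · by_contra h5
      exact hcon.2 ⟨hn.1, h5⟩
  have h5 := (Finset.card_le_card h4).trans (Finset.card_union_le _ _)
  exact_mod_cast h5

theorem almost_large {P : ℕ → Prop} (h : ∀ᶠ n : ℕ in atTop, P n) : AlmostAll P := by
  classical
  obtain ⟨N₁, hN₁⟩ := eventually_atTop.1 h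
  unfold AlmostAll
  have h2 : Tendsto (fun N : ℕ => (N₁ : ℝ) / N) atTop (𝓝 0) := tendsto_const_div_atTop_nhds_zero_nat _
  refine squeeze_zero (fun N => by positivity) (fun N => ?_) h2
  apply div_le_div_of_nonneg_right _ (Nat.cast_nonneg N)
  rw [ncard_eq]
  have h4 : ((Finset.Icc 1 N).filter (fun n => ¬ P n)) ⊆ Finset.range N₁ := by
    intro n hn
    rw [Finset.mem_filter] at hn
    rw [Finset.mem_range]
    by_contra hcon
    exact hn.2 (hN₁ n (not_lt.1 hcon))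
  have h5 := Finset.card_le_card h4
  rw [Finset.card_range] at h5
  exact_mod_cast h5

theorem sq_one {b : ℤ} (h : b ^ 2 = 1) : b = 1 ∨ b = -1 := by
  have h2 : (b - 1) * (b + 1) = 0 := by linear_combination h
  rcases mul_eq_zero.1 h2 with h3 | h3
  · left; omega
  · right; omega

open Pool.Agent.H499R2.ND (Td) in
open Pool.Agent.H499R2.LT (od) in
theorem odds_eq (k : ℕ) : ∀ z : ℤ, (odds k z : ℤ) = od 1 k z := by
  induction k with
  | zero => intro z; rfl
  | succ k ih =>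
    intro z
    rw [od]
    have e : odds (k + 1) z = (if z % 2 = 1 then 1 else 0) + odds k (Td 1 z) := by
      unfold odds
      rw [Finset.card_filter, Finset.card_filter, Finset.sum_range_succ', Nat.add_comm]
      congr 1
    rw [e]
    push_cast
    rw [ih]
    rcases Int.emod_two_eq_zero_or_one z with h | h
    · rw [if_neg (by omega), if_pos h]
    · rw [if_pos h, if_neg (by omega)]

theorem dz_all {x : ℕ → ℤ} (hx : Spread x) {κ : ℝ} (hκ : 0 < κ) : AlmostAll (Z.DZ κ x) := by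
  classical
  obtain ⟨δ, hδ, h⟩ := ((spread_iff _).1 hx).spr
  apply almost_of
  intro ε hε
  filter_upwards [Z.dz_small hδ h hκ hε] with N hN
  rw [ncard_eq]
  refine le_trans (le_of_eq ?_) hN
  congr!

theorem spr_ferm {e : ℕ → ℕ} (he : Spread (fun n => (e n : ℤ))) {a : ℕ} (ha : 1 ≤ a) :
    Spread (fun n => -(a : ℤ) * 3 ^ e n) := by
  obtain ⟨δ, hδ, h⟩ := ((spread_iff _).1 he).spr
  have ha' : -(a : ℤ) ≠ 0 := by
    have : (a : ℤ) ≠ 0 := by exact_mod_cast (by omega : a ≠ 0)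
    simpa using this
  exact (spread_iff _).2 ((spr_exp h (a := -(a : ℤ)) (b := 3) ha' (by norm_num) (by norm_num)).spread hδ)

theorem closed_of {F : Finset ℤ} (h : Closed F) : (∀ y ∈ F, y % 2 = 1) ∧
    ∀ y ∈ F, Pool.Agent.W26.HN.Sy y ∈ F :=
  ⟨fun y hy => Int.odd_iff.1 (h y hy).1, fun y hy => (h y hy).2⟩

open Pool.Agent.H499R2.ND (Td) in
open Pool.Agent.H499R2.LT (od) in
open Pool.Agent.W26.HN (Sy) in
theorem ferm_z (a m j : ℕ) : (Td 1)^[m + j] (-(2 ^ (m + j) * (a : ℤ) + 1)) = 3 ^ j * (-(a : ℤ) * 3 ^ m) + (-1) ∧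
    od 1 (m + j) (-(2 ^ (m + j) * (a : ℤ) + 1)) = ((m + j : ℕ) : ℤ) := by
  have e : -(2 ^ (m + j) * (a : ℤ) + 1) = 2 ^ (m + j) * (-(a : ℤ)) - 1 := by ring
  rw [e]
  obtain ⟨h1, h2⟩ := Z.ferm (-(a : ℤ)) (m + j)
  refine ⟨?_, h2⟩
  rw [h1, pow_add]
  ring

/-- (1) The sequences `n` and the primes (`Nat.nth Nat.Prime n`) are spread; if `x` is spread then so is
`f (x n)` for every nonconstant polynomial `f` with integer coefficients (for example `- x n`), and if the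
sequence of natural numbers `e` is spread then so is `a b ^ (e n)` for all `a ≠ 0` and odd `b ≠ 1, -1`.
(2) Let `x` be a spread sequence of odd integers and `κ > 0`. For almost all `n` there is `B ≤ κ log n`
such that for all odd `z`, all `i ≤ W n` and `|r| ≤ exp (W n)` with `T^k z = 3 ^ i x n + r` the Syracuse
orbits merge: `Syr^A z = Syr^B (x n)`, where `A + i = odds k z + B`.
(3) Let moreover `F` be a finite closed set, for example one of the three known cycles. For almost all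
`n`, for all these `z`: the orbit of `z` enters `F` if and only if that of `x n` does, and the entrance
times `J`, `J'` satisfy `J + i = odds k z + J'`.
(4) Let `a ≥ 1`, `κ > 0` and let the sequence of natural numbers `e` be spread. For almost all `n`, with
`m = e n ≥ 1`, for all `j ≤ W n`, the Syracuse orbits of `-(2 ^ (m + j) a + 1)` and `-(2 ^ m a + 1)` have the
same terms with all numbers `A ≥ m + κ log n`. (5) For `F` as in (3), for almost all `n`: both enter `F`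
after the same number of steps, or both do not enter `F`. -/
theorem result :
    (Spread (fun n => (n : ℤ)) ∧ Spread (fun n => ((Nat.nth Nat.Prime n : ℕ) : ℤ)) ∧
      (∀ x : ℕ → ℤ, Spread x → ∀ f : Polynomial ℤ, 1 ≤ f.natDegree → Spread (fun n => f.eval (x n))) ∧
      (∀ e : ℕ → ℕ, Spread (fun n => (e n : ℤ)) → ∀ a b : ℤ, a ≠ 0 → b % 2 = 1 → b ≠ 1 → b ≠ -1 →
        Spread (fun n => a * b ^ e n))) ∧
    (∀ (x : ℕ → ℤ) (κ : ℝ), Spread x → (∀ n, Odd (x n)) → 0 < κ → AlmostAll (fun n =>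
      ∃ B : ℕ, (B : ℝ) ≤ κ * Real.log n ∧ ∀ (z : ℤ) (k i : ℕ) (r : ℤ), Odd z → (i : ℝ) ≤ W n →
        |(r : ℝ)| ≤ Real.exp (W n) → T^[k] z = 3 ^ i * x n + r →
        ∃ A : ℕ, A + i = odds k z + B ∧ Syr^[A] z = Syr^[B] (x n))) ∧
    (∀ (x : ℕ → ℤ) (F : Finset ℤ), Spread x → (∀ n, Odd (x n)) → Closed F → AlmostAll (fun n =>
      ∀ (z : ℤ) (k i : ℕ) (r : ℤ), Odd z → (i : ℝ) ≤ W n →
        |(r : ℝ)| ≤ Real.exp (W n) → T^[k] z = 3 ^ i * x n + r →
        ((∃ J, Enters F J z) ↔ ∃ J, Enters F J (x n)) ∧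
        ∀ J J' : ℕ, Enters F J z → Enters F J' (x n) → J + i = odds k z + J')) ∧
    (∀ (a : ℕ) (e : ℕ → ℕ) (κ : ℝ), 1 ≤ a → Spread (fun n => (e n : ℤ)) → 0 < κ → AlmostAll (fun n =>
      ∀ m j A : ℕ, m = e n → 1 ≤ m → (j : ℝ) ≤ W n → m + κ * Real.log n ≤ A →
        Syr^[A] (-(2 ^ (m + j) * (a : ℤ) + 1)) = Syr^[A] (-(2 ^ m * (a : ℤ) + 1)))) ∧
    (∀ (a : ℕ) (e : ℕ → ℕ) (F : Finset ℤ), 1 ≤ a → Spread (fun n => (e n : ℤ)) → Closed F →
      AlmostAll (fun n => ∀ m j J : ℕ, m = e n → 1 ≤ m → (j : ℝ) ≤ W n →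
        (Enters F J (-(2 ^ (m + j) * (a : ℤ) + 1)) ↔ Enters F J (-(2 ^ m * (a : ℤ) + 1))))) := by
  classical
  have hid : Spread (fun n => (n : ℤ)) := (spread_iff _).2 (spr_id.spread one_pos)
  have hpr : Spread (fun n => ((Nat.nth Nat.Prime n : ℕ) : ℤ)) :=
    (spread_iff _).2 (spr_prime.spread (by norm_num))
  have hbig : ∀ B : ℤ, AlmostAll (fun n => (B : ℝ) ≤ Real.exp (kap n) ∧ 0 ≤ kap n) := by
    intro B
    apply almost_large
    filter_upwards [(Real.tendsto_exp_atTop.comp L.kap_tendsto).eventually_ge_atTop (B : ℝ),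
      L.kap_tendsto.eventually_ge_atTop 0] with n h1 h2
    exact ⟨h1, h2⟩
  refine ⟨⟨hid, hpr, ?_, ?_⟩, fun x κ hx hodd hκ => ?_, fun x F hx hodd hF => ?_,
    fun a e κ ha he hκ => ?_, fun a e F ha he hF => ?_⟩
  · intro x hx f hf
    exact (spread_iff _).2 (((spread_iff x).1 hx).poly hf)
  · intro e he a b ha hb h1 h2
    have h3 : b ^ 2 ≠ 1 := by
      intro h
      rcases sq_one h with h | h
      · exact h1 h
      · exact h2 h
    obtain ⟨δ, hδ, h⟩ := ((spread_iff _).1 he).spr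
    exact (spread_iff _).2 ((spr_exp h ha hb h3).spread hδ)
  · refine (dz_all hx hκ).mono (fun n hn => ?_)
    obtain ⟨S, hS, hbig, hpass⟩ := Z.pass_Z hn
    have h0 : (Pool.Agent.H499R2.ND.Td 1)^[S] (x n) ≠ 0 := by
      intro h
      rw [h] at hbig
      have := Real.exp_pos (kap n)
      simp only [Int.cast_zero, abs_zero] at hbig
      linarith
    have g1 := Z.od_nonneg S (x n)
    have g2 := Z.od_le S (x n)
    refine ⟨(Pool.Agent.H499R2.LT.od 1 S (x n)).toNat, ?_, fun z k i r hz hi hr hzk => ?_⟩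
    · have : ((Pool.Agent.H499R2.LT.od 1 S (x n)).toNat : ℝ) ≤ S := by
        exact_mod_cast (by omega : (Pool.Agent.H499R2.LT.od 1 S (x n)).toNat ≤ S)
      linarith
    · obtain ⟨h1, h2⟩ := hpass z k i r hi hr hzk
      have h3 := Z.Sy_merge (Int.odd_iff.1 (hodd n)) (Int.odd_iff.1 hz) h1 h0
      have g3 := Z.od_nonneg (k + S) z
      refine ⟨(Pool.Agent.H499R2.LT.od 1 (k + S) z).toNat, ?_, h3⟩
      rw [← odds_eq k z] at h2
      omega
  · obtain ⟨hF1, hF2⟩ := closed_of hF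
    obtain ⟨B, -, hB⟩ := Z.orbit_bound hF1 hF2
    refine ((dz_all hx one_pos).and (hbig B)).mono (fun n hn z k i r hz hi hr hzk => ?_)
    obtain ⟨S, hS, hlarge, hpass⟩ := Z.pass_Z hn.1
    obtain ⟨h1, h2⟩ := hpass z k i r hi hr hzk
    have hyB : B < |(Pool.Agent.H499R2.ND.Td 1)^[S] (x n)| := by
      have := lt_of_le_of_lt hn.2.1 hlarge
      exact_mod_cast this
    have key1 := fun J => Z.En_iff hF1 hB (Int.odd_iff.1 hz) (k := k + S) (by rw [h1]; exact hyB) J
    have key2 := fun J => Z.En_iff hF1 hB (Int.odd_iff.1 (hodd n)) (k := S) hyB J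
    rw [h1] at key1
    have g3 := Z.od_nonneg (k + S) z
    have g4 := Z.od_nonneg S (x n)
    refine ⟨⟨?_, ?_⟩, ?_⟩
    · rintro ⟨J, hJ⟩
      obtain ⟨j, -, h4⟩ := (key1 J).1 hJ
      have g5 := Z.od_nonneg j ((Pool.Agent.H499R2.ND.Td 1)^[S] (x n))
      exact ⟨_, (key2 (Pool.Agent.H499R2.LT.od 1 S (x n) +
        Pool.Agent.H499R2.LT.od 1 j ((Pool.Agent.H499R2.ND.Td 1)^[S] (x n))).toNat).2
        ⟨j, by omega, h4⟩⟩
    · rintro ⟨J, hJ⟩
      obtain ⟨j, -, h4⟩ := (key2 J).1 hJ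
      have g5 := Z.od_nonneg j ((Pool.Agent.H499R2.ND.Td 1)^[S] (x n))
      exact ⟨_, (key1 (Pool.Agent.H499R2.LT.od 1 (k + S) z +
        Pool.Agent.H499R2.LT.od 1 j ((Pool.Agent.H499R2.ND.Td 1)^[S] (x n))).toNat).2
        ⟨j, by omega, h4⟩⟩
    · intro J J' hJ hJ'
      obtain ⟨j, h3, h4⟩ := (key1 J).1 hJ
      obtain ⟨j', h5, h6⟩ := (key2 J').1 hJ'
      have h7 := Z.E_transfer h4 h6
      subst h7
      rw [← odds_eq k z] at h2
      omega
  · refine ((dz_all (spr_ferm he ha) hκ).and (hbig 1)).mono (fun n hn m j A hm hm1 hj hA => ?_)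
    subst hm
    obtain ⟨S, hS, hlarge, hpass⟩ := Z.pass_Z hn.1
    have h0 : (Pool.Agent.H499R2.ND.Td 1)^[S] (-(a : ℤ) * 3 ^ e n) ≠ 0 := by
      intro h
      rw [h] at hlarge
      have := Real.exp_pos (kap n)
      simp only [Int.cast_zero, abs_zero] at hlarge
      linarith
    have hr1 : |((-1 : ℤ) : ℝ)| ≤ Real.exp (kap n) := by
      push_cast
      rw [abs_neg, abs_one]
      exact Real.one_le_exp hn.2.2
    have hodd : ∀ l : ℕ, 1 ≤ l → (-(2 ^ l * (a : ℤ) + 1)) % 2 = 1 := by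
      intro l hl
      obtain ⟨d, rfl⟩ := Nat.exists_eq_add_of_le hl
      have : (2 : ℤ) ^ (1 + d) * a = 2 * (2 ^ d * a) := by ring
      omega
    obtain ⟨f1, f2⟩ := ferm_z a (e n) j
    obtain ⟨f3, f4⟩ := ferm_z a (e n) 0
    rw [Nat.add_zero] at f3 f4
    obtain ⟨h1, h2⟩ := hpass _ (e n + j) j (-1) hj hr1 f1
    obtain ⟨h3, h4⟩ := hpass _ (e n) 0 (-1) (by rw [Nat.cast_zero]; exact hn.2.2) hr1 f3
    have h5 := Z.Sy_merge (hodd (e n) hm1) (hodd (e n + j) (by omega)) (h1.trans h3.symm) (by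
      rw [h3]; exact h0)
    have g1 := Z.od_nonneg (e n + j + S) (-(2 ^ (e n + j) * (a : ℤ) + 1))
    have g2 := Z.od_nonneg (e n + S) (-(2 ^ e n * (a : ℤ) + 1))
    have g3 := Z.od_le S (-(a : ℤ) * 3 ^ e n)
    rw [f2] at h2
    rw [f4] at h4
    push_cast at h2 h4
    have h6 : (Pool.Agent.H499R2.LT.od 1 (e n + j + S) (-(2 ^ (e n + j) * (a : ℤ) + 1))).toNat =
        (Pool.Agent.H499R2.LT.od 1 (e n + S) (-(2 ^ e n * (a : ℤ) + 1))).toNat := by omega
    rw [h6] at h5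
    set A0 := (Pool.Agent.H499R2.LT.od 1 (e n + S) (-(2 ^ e n * (a : ℤ) + 1))).toNat with hA0
    have h7 : A0 ≤ A := by
      have h8 : A0 ≤ e n + S := by omega
      have h9 : ((e n + S : ℕ) : ℝ) ≤ A := by push_cast; linarith
      exact h8.trans (by exact_mod_cast h9)
    have h10 : (Syr^[A0] (-(2 ^ (e n + j) * (a : ℤ) + 1))) = Syr^[A0] (-(2 ^ e n * (a : ℤ) + 1)) := h5
    obtain ⟨d, rfl⟩ := Nat.exists_eq_add_of_le h7
    rw [Nat.add_comm, Function.iterate_add_apply, Function.iterate_add_apply, h10]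
  · obtain ⟨hF1, hF2⟩ := closed_of hF
    obtain ⟨B, -, hB⟩ := Z.orbit_bound hF1 hF2
    refine ((dz_all (spr_ferm he ha) one_pos).and (hbig B)).mono (fun n hn m j J hm hm1 hj => ?_)
    subst hm
    obtain ⟨S, hS, hlarge, hpass⟩ := Z.pass_Z hn.1
    have hr1 : |((-1 : ℤ) : ℝ)| ≤ Real.exp (kap n) := by
      push_cast
      rw [abs_neg, abs_one]
      exact Real.one_le_exp hn.2.2
    have hodd : ∀ l : ℕ, 1 ≤ l → (-(2 ^ l * (a : ℤ) + 1)) % 2 = 1 := by
      intro l hl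
      obtain ⟨d, rfl⟩ := Nat.exists_eq_add_of_le hl
      have : (2 : ℤ) ^ (1 + d) * a = 2 * (2 ^ d * a) := by ring
      omega
    have hyB : B < |(Pool.Agent.H499R2.ND.Td 1)^[S] (-(a : ℤ) * 3 ^ e n)| := by
      have := lt_of_le_of_lt hn.2.1 hlarge
      exact_mod_cast this
    obtain ⟨f1, f2⟩ := ferm_z a (e n) j
    obtain ⟨f3, f4⟩ := ferm_z a (e n) 0
    rw [Nat.add_zero] at f3 f4
    obtain ⟨h1, h2⟩ := hpass _ (e n + j) j (-1) hj hr1 f1
    obtain ⟨h3, h4⟩ := hpass _ (e n) 0 (-1) (by rw [Nat.cast_zero]; exact hn.2.2) hr1 f3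
    rw [f2] at h2
    rw [f4] at h4
    push_cast at h2 h4
    have key1 := Z.En_iff hF1 hB (hodd (e n + j) (by omega)) (k := e n + j + S) (by rw [h1]; exact hyB) J
    have key2 := Z.En_iff hF1 hB (hodd (e n) hm1) (k := e n + S) (by rw [h3]; exact hyB) J
    rw [h1] at key1
    rw [h3] at key2
    show Pool.Agent.W26.HN.En F J _ ↔ Pool.Agent.W26.HN.En F J _
    rw [key1, key2]
    refine exists_congr fun j' => and_congr ?_ Iff.rfl
    constructor <;> intro h <;> omega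

end Pool.Agent.Results.MP_005f52_nt.SparseSequences
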